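import Pool.Agent.U645.LB.C

/-! # Multiplicities: iterated kernels and asymptotics -/

open Complex MeasureTheory Filter Topology Set Metric

set_option linter.unusedSectionVars false
set_option linter.unusedVariables false
set_option autoImplicit false
set_option maxHeartbeats 4000000

namespace Pool.Agent.U645.LB

open H313.TK Pool.Agent.R303.LW

noncomputable section

/-- the iterated kernels -/
def kn (ρ : ℂ) : ℕ → ℝ → ℂ
  | 0 => kc
  | j + 1 => Ist ρ (kn ρ j)

lemma DK.decay {g : ℝ → ℂ} (hg : DK g) : ∃ C : ℝ, 0 ≤ C ∧ ∀ v, ‖g v‖ ≤ C * Real.exp (-(3 * |v|)) := by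
  obtain ⟨C, hC, hb⟩ := hg.bd
  refine ⟨C * 4, by positivity, fun z => (hb z).trans ?_⟩
  rw [mul_assoc]
  refine mul_le_mul_of_nonneg_left ?_ hC
  have h1 := W_decay z
  have h2 : Real.exp (-(3 * |z|)) = Real.exp (-|z|) * Real.exp (-(2 * |z|)) := by
    rw [← Real.exp_add]; congr 1; ring
  rw [h2, ← mul_assoc]
  have h3 : W z = W z * Real.exp (2 * |z|) * Real.exp (-(2 * |z|)) := by
    rw [mul_assoc, ← Real.exp_add, add_neg_cancel, Real.exp_zero, mul_one]
  rw [h3]
  exact mul_le_mul_of_nonneg_right h1 (Real.exp_pos _).le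

/-- the kernels up to the multiplicity of the zero are dominated by the weight -/
theorem kn_DK {ρ : ℂ} (h0 : 0 < ρ.re) (h1 : ρ.re < 1) {m : ℕ} (hm : (m : ℕ∞) ≤ analyticOrderAt riemannZeta ρ) :
    ∀ j : ℕ, j ≤ m → DK (kn ρ j) ∧ ∀ s : ℂ, |s.re| ≤ 2 →
      (s - ρ) ^ j * ∫ v : ℝ, cexp (-s * v) * kn ρ j v = Kh s := by
  have hne : ρ ≠ 1 := by rintro rfl; simp at h1
  have hβ : |ρ.re| ≤ 2 := by rw [abs_of_pos h0]; linarith
  have han : AnalyticAt ℂ riemannZeta ρ := by
    have hd : DifferentiableOn ℂ riemannZeta {(1:ℂ)}ᶜ := fun z hz =>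
      (differentiableAt_riemannZeta hz).differentiableWithinAt
    exact hd.analyticAt (isOpen_compl_singleton.mem_nhds hne)
  obtain ⟨φ, hφ, hev⟩ := (natCast_le_analyticOrderAt han).1 hm
  intro j
  induction j with
  | zero =>
    intro _
    refine ⟨kc_DK, fun s hs => ?_⟩
    rw [pow_zero, one_mul]
    rfl
  | succ j ih =>
    intro hj
    obtain ⟨hD, hf⟩ := ih (by omega)
    -- the moment vanishes
    have hmom : ∫ z : ℝ, cexp (-ρ * z) * kn ρ j z = 0 := by
      obtain ⟨C, hC, hb⟩ := DK.decay hD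
      have c1 : ContinuousAt (fun s : ℂ => ∫ v : ℝ, cexp (-s * v) * kn ρ j v) ρ :=
        (tr_diff hD.cont C 3 hC hb ρ (by rw [abs_of_pos h0]; linarith)).continuousAt
      have c2 : ContinuousAt (fun s : ℂ => (s - ρ) ^ (m - j) * (φ s * qh s)) ρ :=
        ((continuousAt_id.sub continuousAt_const).pow _).mul (hφ.continuousAt.mul
          (qh_deriv ρ (by rw [abs_of_pos h0]; linarith)).continuousAt)
      have t1 := c1.tendsto.mono_left (nhdsWithin_le_nhds (s := {ρ}ᶜ))
      have t2 := c2.tendsto.mono_left (nhdsWithin_le_nhds (s := {ρ}ᶜ))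
      have hV : {s : ℂ | 0 < s.re ∧ s.re < 1} ∈ 𝓝 ρ :=
        IsOpen.mem_nhds ((isOpen_lt continuous_const Complex.continuous_re).inter
          (isOpen_lt Complex.continuous_re continuous_const)) ⟨h0, h1⟩
      have heq : (fun s : ℂ => (s - ρ) ^ (m - j) * (φ s * qh s)) =ᶠ[𝓝[≠] ρ]
          (fun s : ℂ => ∫ v : ℝ, cexp (-s * v) * kn ρ j v) := by
        filter_upwards [hev.filter_mono nhdsWithin_le_nhds, mem_nhdsWithin_of_mem_nhds hV, self_mem_nhdsWithin]
          with s hs1 hs2 hs3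
        have hs4 : s - ρ ≠ 0 := sub_ne_zero.2 hs3
        have e1 := hf s (by rw [abs_of_pos hs2.1]; linarith [hs2.2])
        have e2 := Kh_eq s hs2.1 (by linarith [hs2.2]) (by rintro rfl; have := hs2.2; simp at this)
        rw [e2, hs1, smul_eq_mul] at e1
        refine mul_left_cancel₀ (pow_ne_zero j hs4) ?_
        rw [e1]
        have e3 : (s - ρ) ^ m = (s - ρ) ^ j * (s - ρ) ^ (m - j) := by
          rw [← pow_add]
          congr 1
          omega
        rw [e3]
        ring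
      have t3 := t2.congr' heq
      have h5 := tendsto_nhds_unique t1 t3
      rw [h5, sub_self, zero_pow (by omega), zero_mul]
    refine ⟨Ist_DK hD ρ hβ hmom, fun s hs => ?_⟩
    have h6 := tr_DK hD hβ hs hmom
    have h7 := hf s hs
    rw [pow_succ, mul_assoc]
    show (s - ρ) ^ j * ((s - ρ) * ∫ v : ℝ, cexp (-s * v) * Ist ρ (kn ρ j) v) = Kh s
    rw [h6, h7]

/-- Cesàro lemma -/
lemma ces {φ : ℝ → ℂ} (hi : ∀ t, IntegrableOn φ (Iic t)) {n : ℕ} {c : ℂ}
    (h : Tendsto (fun t : ℝ => φ t / (t : ℂ) ^ n) atTop (𝓝 c)) :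
    Tendsto (fun t : ℝ => (∫ w in Iic t, φ w) / (t : ℂ) ^ (n + 1)) atTop (𝓝 (c / (n + 1))) := by
  set r : ℝ → ℂ := fun w => φ w - c * (w : ℂ) ^ n with hr
  have hir : ∀ a b : ℝ, IntervalIntegrable r volume a b := by
    intro a b
    have h1 : IntervalIntegrable φ volume a b := by
      rw [intervalIntegrable_iff]
      exact (hi (max a b)).mono_set (fun x hx => (mem_uIoc.1 hx).elim (fun h => h.2.trans (le_max_right _ _))
        (fun h => h.2.trans (le_max_left _ _)))
    exact h1.sub ((by fun_prop : Continuous fun w : ℝ => c * (w : ℂ) ^ n).intervalIntegrable _ _)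
  have hsplit : ∀ t : ℝ, 0 < t → (∫ w in Iic t, φ w) / (t : ℂ) ^ (n + 1) - c / (n + 1) =
      ((∫ w in Iic (0:ℝ), φ w) + ∫ w in (0:ℝ)..t, r w) / (t : ℂ) ^ (n + 1) := by
    intro t ht
    have ht' : (t : ℂ) ≠ 0 := by exact_mod_cast ht.ne'
    have h1 : ∫ w in Iic t, φ w = (∫ w in Iic (0:ℝ), φ w) + ∫ w in (0:ℝ)..t, φ w := by
      rw [← intervalIntegral.integral_Iic_sub_Iic (hi 0) (hi t)]
      ring
    have h2 : ∫ w in (0:ℝ)..t, φ w = (∫ w in (0:ℝ)..t, r w) + ∫ w in (0:ℝ)..t, c * (w : ℂ) ^ n := by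
      rw [← intervalIntegral.integral_add (hir 0 t)
        ((by fun_prop : Continuous fun w : ℝ => c * (w : ℂ) ^ n).intervalIntegrable _ _)]
      refine intervalIntegral.integral_congr fun w _ => ?_
      simp [hr]
    have h3 : ∫ w in (0:ℝ)..t, c * (w : ℂ) ^ n = c * ((t : ℂ) ^ (n + 1) / (n + 1)) := by
      rw [intervalIntegral.integral_const_mul]
      congr 1
      have h4 := integral_pow (a := 0) (b := t) n
      have h5 : (∫ w in (0:ℝ)..t, (w : ℂ) ^ n) = ((∫ w in (0:ℝ)..t, w ^ n : ℝ) : ℂ) := by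
        rw [← intervalIntegral.integral_ofReal]
        refine intervalIntegral.integral_congr fun w _ => ?_
        push_cast
        rfl
      rw [h5, h4]
      push_cast
      simp
    have hn : (n : ℂ) + 1 ≠ 0 := by exact_mod_cast Nat.succ_ne_zero n
    rw [h1, h2, h3]
    field_simp
    ring
  rw [Metric.tendsto_atTop]
  intro ε hε
  rw [Metric.tendsto_atTop] at h
  obtain ⟨N, hN⟩ := h (ε / 2) (by positivity)
  set w0 : ℝ := max N 1 with hw0
  have hw1 : 1 ≤ w0 := le_max_right _ _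
  have hrw : ∀ w, w0 ≤ w → ‖r w‖ ≤ ε / 2 * w ^ n := by
    intro w hw
    have hw2 : 0 < w := by linarith
    have h1 := hN w ((le_max_left _ _).trans hw)
    rw [dist_eq_norm] at h1
    have h2 : r w = (φ w / (w : ℂ) ^ n - c) * (w : ℂ) ^ n := by
      have : (w : ℂ) ^ n ≠ 0 := pow_ne_zero _ (by exact_mod_cast hw2.ne')
      rw [sub_mul, div_mul_cancel₀ _ this]
    rw [h2, norm_mul, norm_pow, Complex.norm_real, Real.norm_of_nonneg hw2.le]
    exact mul_le_mul_of_nonneg_right h1.le (by positivity)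
  set K : ℝ := ‖∫ w in Iic (0:ℝ), φ w‖ + ‖∫ w in (0:ℝ)..w0, r w‖ with hK
  refine ⟨max w0 (K / (ε / 2) + 1), fun t ht => ?_⟩
  have ht1 : w0 ≤ t := (le_max_left _ _).trans ht
  have ht2 : K / (ε / 2) + 1 ≤ t := (le_max_right _ _).trans ht
  have ht0 : 0 < t := by linarith
  rw [dist_eq_norm, hsplit t ht0, norm_div, norm_pow, Complex.norm_real, Real.norm_of_nonneg ht0.le]
  rw [div_lt_iff₀ (by positivity)]
  have h1 : ∫ w in (0:ℝ)..t, r w = (∫ w in (0:ℝ)..w0, r w) + ∫ w in w0..t, r w :=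
    (intervalIntegral.integral_add_adjacent_intervals (hir _ _) (hir _ _)).symm
  have h2 : ‖∫ w in w0..t, r w‖ ≤ ε / 2 * t ^ n * |t - w0| := by
    refine intervalIntegral.norm_integral_le_of_norm_le_const fun w hw => ?_
    rw [uIoc_of_le ht1] at hw
    refine (hrw w hw.1.le).trans ?_
    have : w ^ n ≤ t ^ n := pow_le_pow_left₀ (by linarith [hw.1]) hw.2 n
    exact mul_le_mul_of_nonneg_left this (by positivity)
  rw [abs_of_nonneg (by linarith)] at h2
  have h3 : ε / 2 * t ^ n * (t - w0) ≤ ε / 2 * t ^ (n + 1) := by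
    rw [pow_succ, ← mul_assoc]
    exact mul_le_mul_of_nonneg_left (by linarith) (by positivity)
  have h4 : K < ε / 2 * t ^ (n + 1) := by
    have h5 : K < ε / 2 * t := by
      have : K / (ε / 2) < t := by linarith
      rw [div_lt_iff₀ (by positivity)] at this
      linarith
    have h6 : t ≤ t ^ (n + 1) := by
      have : 1 ≤ t ^ n := one_le_pow₀ (by linarith)
      rw [pow_succ]
      nlinarith
    calc K < ε / 2 * t := h5
      _ ≤ _ := mul_le_mul_of_nonneg_left h6 (by positivity)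
  rw [h1]
  calc ‖(∫ w in Iic (0:ℝ), φ w) + ((∫ w in (0:ℝ)..w0, r w) + ∫ w in w0..t, r w)‖ ≤
        ‖∫ w in Iic (0:ℝ), φ w‖ + (‖∫ w in (0:ℝ)..w0, r w‖ + ‖∫ w in w0..t, r w‖) :=
        (norm_add_le _ _).trans (add_le_add le_rfl (norm_add_le _ _))
    _ < ε / 2 * t ^ (n + 1) + ε / 2 * t ^ (n + 1) := by linarith
    _ = _ := by ring

/-- asymptotics of the twisted averages -/
theorem asy {ρ : ℂ} (hz : riemannZeta ρ = 0) (h0 : 1 / 2 ≤ ρ.re) (h1 : ρ.re < 1) {m : ℕ}
    (hm : (m : ℕ∞) ≤ analyticOrderAt riemannZeta ρ) : ∀ j : ℕ, j + 1 ≤ m →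
    Tendsto (fun t : ℝ => (cexp (-ρ * t) * Tw ff (kn ρ (j + 1)) t) / (t : ℂ) ^ j) atTop
      (𝓝 ((∫ w : ℝ, cexp (-ρ * w) * AA w) / (j.factorial : ℂ))) := by
  have hp : 0 < ρ.re := by linarith
  have hK := kn_DK hp h1 hm
  intro j
  induction j with
  | zero =>
    intro hj
    have h2 := fun t : ℝ => (fub ff_meas ff_bd kc_DK ρ hp h1 t).2
    have h3 : Tendsto (fun t : ℝ => ∫ w in Iic t, cexp (-ρ * w) * AA w) atTop
        (𝓝 (∫ w : ℝ, cexp (-ρ * w) * AA w)) :=
      (aecover_Iic tendsto_id).integral_tendsto_of_countably_generated (AA_int hp (by linarith))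
    simp only [pow_zero, div_one, Nat.factorial_zero, Nat.cast_one]
    refine h3.congr fun t => ?_
    exact (h2 t).symm
  | succ j ih =>
    intro hj
    have h2 := fun t : ℝ => fub ff_meas ff_bd (hK (j + 1) (by omega)).1 ρ hp h1 t
    have h3 := ces (φ := fun w : ℝ => cexp (-ρ * w) * Tw ff (kn ρ (j + 1)) w) (fun t => (h2 t).1) (ih (by omega))
    have e : (∫ w : ℝ, cexp (-ρ * w) * AA w) / ((j + 1).factorial : ℂ) =
        (∫ w : ℝ, cexp (-ρ * w) * AA w) / (j.factorial : ℂ) / ((j : ℂ) + 1) := by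
      rw [Nat.factorial_succ]
      push_cast
      rw [div_div]
      congr 1
      ring
    rw [e]
    refine h3.congr fun t => ?_
    rw [← (h2 t).2]
    rfl

end

end Pool.Agent.U645.LB
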