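import Pool.Agent.U645.LB.D

/-! # Both signs of the centered Liouville function in every window -/

open Complex MeasureTheory Filter Topology Set Metric

set_option linter.unusedSectionVars false
set_option linter.unusedVariables false
set_option autoImplicit false
set_option maxHeartbeats 4000000

namespace Pool.Agent.U645.LB

open H313.TK Pool.Agent.R303.LW

noncomputable section

/-- **Core inequality for the centered Liouville function.** -/
theorem coreC {ρ : ℂ} (hz : riemannZeta ρ = 0) (h0 : 1 / 2 ≤ ρ.re) (h1 : ρ.re < 1) {j : ℕ}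
    (hm : ((j + 1 : ℕ) : ℕ∞) ≤ analyticOrderAt riemannZeta ρ) :
    ∃ c : ℝ, 0 < c ∧ ∀ᶠ t : ℝ in atTop, ∀ s : ℝ, s = 1 ∨ s = -1 →
      c * (t ^ j * Real.exp (ρ.re * t)) ≤ ∫ v : ℝ, max (s * ff (t - v)) 0 * kp v := by
  have hp : 0 < ρ.re := by linarith
  have hlim := asy hz h0 h1 hm j le_rfl
  obtain ⟨B, hB, hb⟩ := (kn_DK hp h1 hm (j + 1) le_rfl).1.bd
  obtain ⟨C, hC, hCb⟩ := AA_bd
  have avg : ∀ t : ℝ, 0 ≤ t → |∫ v : ℝ, ff (t - v) * kp v| ≤ C := by
    intro t ht
    have k1 := hCb t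
    rw [max_eq_left ht, min_eq_right ht, mul_zero, zero_mul, zero_add, Real.exp_zero, mul_one] at k1
    have k2 : AA t = ((∫ v : ℝ, ff (t - v) * kp v : ℝ) : ℂ) := by
      unfold AA Tw
      rw [← integral_complex_ofReal]
      refine integral_congr_ae (ae_of_all _ fun v => ?_)
      simp [kc]
    rw [k2, Complex.norm_real, Real.norm_eq_abs] at k1
    exact k1
  set A : ℝ := ‖(∫ w : ℝ, cexp (-ρ * w) * AA w) / (j.factorial : ℂ)‖ with hA
  have hA0 : 0 < A := norm_pos_iff.2 (div_ne_zero (AA_zero hz h0 h1) (by exact_mod_cast j.factorial_ne_zero))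
  have low : ∀ᶠ t : ℝ in atTop, A / 2 * (t ^ j * Real.exp (ρ.re * t)) ≤ ‖Tw ff (kn ρ (j + 1)) t‖ := by
    have h5 := hlim.norm.eventually (lt_mem_nhds (show A / 2 < A by linarith))
    filter_upwards [h5, eventually_gt_atTop (0:ℝ)] with t ht ht0
    rw [norm_div, norm_mul, norm_tw, norm_pow, Complex.norm_real, Real.norm_of_nonneg ht0.le,
      lt_div_iff₀ (by positivity)] at ht
    have h6 : Real.exp (ρ.re * t) * Real.exp (-ρ.re * t) = 1 := by
      rw [← Real.exp_add]
      simp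
    calc A / 2 * (t ^ j * Real.exp (ρ.re * t)) = (A / 2 * t ^ j) * Real.exp (ρ.re * t) := by ring
      _ ≤ (Real.exp (-ρ.re * t) * ‖Tw ff (kn ρ (j + 1)) t‖) * Real.exp (ρ.re * t) :=
          mul_le_mul_of_nonneg_right ht.le (Real.exp_pos _).le
      _ = (Real.exp (ρ.re * t) * Real.exp (-ρ.re * t)) * ‖Tw ff (kn ρ (j + 1)) t‖ := by ring
      _ = _ := by rw [h6, one_mul]
  have hB1 : 0 < B + 1 := by linarith
  set c := A / (16 * (B + 1)) with hc
  have hc0 : 0 < c := by positivity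
  have small : ∀ᶠ t : ℝ in atTop, C ≤ 2 * c * (t ^ j * Real.exp (ρ.re * t)) := by
    have h7 : Tendsto (fun t : ℝ => Real.exp (ρ.re * t)) atTop atTop :=
      Real.tendsto_exp_atTop.comp (Tendsto.const_mul_atTop hp tendsto_id)
    filter_upwards [h7.eventually_ge_atTop (C / (2 * c)), eventually_ge_atTop (1:ℝ)] with t ht ht1
    rw [div_le_iff₀ (by positivity)] at ht
    have e : Real.exp (ρ.re * t) ≤ t ^ j * Real.exp (ρ.re * t) :=
      le_mul_of_one_le_left (Real.exp_pos _).le (one_le_pow₀ ht1)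
    calc C ≤ Real.exp (ρ.re * t) * (2 * c) := ht
      _ ≤ (t ^ j * Real.exp (ρ.re * t)) * (2 * c) := mul_le_mul_of_nonneg_right e (by positivity)
      _ = _ := by ring
  refine ⟨c, hc0, ?_⟩
  filter_upwards [low, small, eventually_ge_atTop (0:ℝ)] with t k1 k2 ht0 s hs
  have i1 := avg_int ff ff_meas ff_bd t
  have hm := ff_meas
  have i2 : Integrable (fun v => |ff (t - v)| * kp v) :=
    avg_int (fun u => |ff u|) (by fun_prop) (fun u => by rw [abs_abs]; exact ff_bd u) t
  have i3 : Integrable (fun v => max (s * ff (t - v)) 0 * kp v) :=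
    avg_int (fun u => max (s * ff u) 0) (by fun_prop) (fun u => (part_le s hs _).trans (ff_bd u)) t
  have e1 : ∫ v, |ff (t - v)| * kp v = 2 * (∫ v, max (s * ff (t - v)) 0 * kp v) - s * ∫ v, ff (t - v) * kp v := by
    rw [← integral_const_mul, ← integral_const_mul, ← integral_sub (i3.const_mul 2) (i1.const_mul s)]
    refine integral_congr_ae (ae_of_all _ fun v => ?_)
    simp only
    rw [part_id s hs (ff (t - v))]
    ring
  have e3 : |s * ∫ v, ff (t - v) * kp v| ≤ C := by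
    rw [abs_mul]
    have : |s| = 1 := by rcases hs with h | h <;> rw [h] <;> simp
    rw [this, one_mul]
    exact avg t ht0
  have e4 : ‖Tw ff (kn ρ (j + 1)) t‖ ≤ (2 * (B + 1)) * ∫ v, |ff (t - v)| * kp v := by
    unfold Tw
    rw [← integral_const_mul]
    refine norm_integral_le_of_norm_le (i2.const_mul _) (ae_of_all _ fun v => ?_)
    rw [norm_mul, Complex.norm_real, Real.norm_eq_abs]
    have h5 : ‖kn ρ (j + 1) v‖ ≤ 2 * (B + 1) * kp v := by
      refine (hb v).trans ?_
      have h6 := (kp_bounds v).1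
      have h7 := W_pos v
      nlinarith
    calc |ff (t - v)| * ‖kn ρ (j + 1) v‖ ≤ |ff (t - v)| * (2 * (B + 1) * kp v) :=
          mul_le_mul_of_nonneg_left h5 (abs_nonneg _)
      _ = _ := by ring
  have e5 := (abs_le.1 e3).1
  rw [e1] at e4
  have e6 : A / 2 * (t ^ j * Real.exp (ρ.re * t)) ≤
      (2 * (B + 1)) * (2 * (∫ v, max (s * ff (t - v)) 0 * kp v) - s * ∫ v, ff (t - v) * kp v) := k1.trans e4
  have e7 : 4 * c * (t ^ j * Real.exp (ρ.re * t)) ≤
      2 * (∫ v, max (s * ff (t - v)) 0 * kp v) - s * ∫ v, ff (t - v) * kp v := by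
    have h8 : A / 2 * (t ^ j * Real.exp (ρ.re * t)) = (2 * (B + 1)) * (4 * c * (t ^ j * Real.exp (ρ.re * t))) := by
      rw [hc]
      field_simp
      ring
    rw [h8] at e6
    exact le_of_mul_le_mul_left e6 (by positivity)
  linarith

/-- the centered function in the original variable -/
def gg (y : ℝ) : ℝ := lam * (LL y - 1 / Z * (Ici (1:ℝ)).indicator (fun y => Real.sqrt y) y)

lemma ff_gg (u : ℝ) : ff u = gg (Real.exp u) := by
  unfold ff gg cen ll
  congr 3
  by_cases h : 0 ≤ u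
  · rw [indicator_of_mem (show u ∈ Ici (0:ℝ) from h), indicator_of_mem (show Real.exp u ∈ Ici (1:ℝ) from Real.one_le_exp h),
      Real.sqrt_eq_rpow, ← Real.exp_mul]
    congr 1
    ring
  · push Not at h
    rw [indicator_of_notMem (show u ∉ Ici (0:ℝ) from fun h2 => absurd h (not_lt.2 h2)),
      indicator_of_notMem (show Real.exp u ∉ Ici (1:ℝ) from fun h2 =>
        absurd (show (1:ℝ) ≤ Real.exp u from h2) (not_le.2 (Real.exp_lt_one_iff.2 h)))]

/-- **Both signs in every window, with multiplicity.** -/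
theorem signsC {ρ : ℂ} (hz : riemannZeta ρ = 0) (h0 : 1 / 2 ≤ ρ.re) (h1 : ρ.re < 1) {j : ℕ}
    (hm : ((j + 1 : ℕ) : ℕ∞) ≤ analyticOrderAt riemannZeta ρ) :
    ∃ c : ℝ, 0 < c ∧ ∀ᶠ x : ℝ in atTop, ∀ s : ℝ, s = 1 ∨ s = -1 →
      ∃ y ∈ Icc x (x * Real.log x), c * (y ^ ρ.re * Real.log y ^ j) ≤ s * (LL y - Real.sqrt y / Z) := by
  have hcore := coreC hz h0 h1 hm
  have hw := win_sup ff_meas ff_bd ρ.re h0 h1.le (fun t => t ^ j)
    (by filter_upwards [eventually_ge_atTop (1:ℝ)] with t ht using one_le_pow₀ ht) hcore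
  obtain ⟨c, hc, h⟩ := sup_log (f := ff) (g := gg) ff_gg (β := ρ.re) (Lf := fun t => t ^ j) hw
  refine ⟨c / lam / 2 ^ j, by have := lam_pos; positivity, ?_⟩
  filter_upwards [h, eventually_ge_atTop (Real.exp 1)] with x hx hx1 s hs
  obtain ⟨y, hy, hy2⟩ := hx s hs
  have hx0 : 0 < x := (Real.exp_pos 1).trans_le hx1
  have hl1 : 1 ≤ Real.log x := by rwa [Real.le_log_iff_exp_le hx0]
  have hx2 : 1 ≤ x := by
    have := Real.add_one_le_exp (1:ℝ)
    linarith
  have hy1 : 1 ≤ y := hx2.trans hy.1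
  have hy0 : 0 < y := by linarith
  refine ⟨y, hy, ?_⟩
  have hl := lam_pos
  have hgg : gg y = lam * (LL y - Real.sqrt y / Z) := by
    unfold gg
    rw [indicator_of_mem (show y ∈ Ici (1:ℝ) from hy1)]
    congr 2
    ring
  rw [hgg] at hy2
  have hlog : Real.log y ≤ 2 * ct (Real.log x) := by
    have h2 : Real.log y ≤ Real.log (x * Real.log x) := Real.log_le_log hy0 hy.2
    rw [Real.log_mul hx0.ne' (by linarith)] at h2
    have h3 := Real.log_le_sub_one_of_pos (show 0 < Real.log x by linarith)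
    unfold ct
    have h4 := Real.log_nonneg hl1
    linarith
  have hly : 0 ≤ Real.log y := Real.log_nonneg hy1
  have hpow : Real.log y ^ j ≤ 2 ^ j * ct (Real.log x) ^ j := by
    rw [← mul_pow]
    exact pow_le_pow_left₀ hly hlog j
  have e1 : c / lam / 2 ^ j * (y ^ ρ.re * Real.log y ^ j) ≤ c / lam * (ct (Real.log x) ^ j * y ^ ρ.re) := by
    have h5 : c / lam / 2 ^ j * (y ^ ρ.re * Real.log y ^ j) ≤
        c / lam / 2 ^ j * (y ^ ρ.re * (2 ^ j * ct (Real.log x) ^ j)) := by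
      have : 0 ≤ y ^ ρ.re := Real.rpow_nonneg hy0.le _
      gcongr
    refine h5.trans (le_of_eq ?_)
    field_simp
  refine e1.trans ?_
  rw [div_mul_eq_mul_div, div_le_iff₀ hl]
  calc c * (ct (Real.log x) ^ j * y ^ ρ.re) ≤ s * (lam * (LL y - Real.sqrt y / Z)) := hy2
    _ = _ := by ring

lemma order_pos {ρ : ℂ} (hz : riemannZeta ρ = 0) (h1 : ρ.re < 1) :
    ((analyticOrderNatAt riemannZeta ρ - 1 + 1 : ℕ) : ℕ∞) ≤ analyticOrderAt riemannZeta ρ := by
  have hne : ρ ≠ 1 := by rintro rfl; simp at h1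
  have han : AnalyticAt ℂ riemannZeta ρ := by
    have hd : DifferentiableOn ℂ riemannZeta {(1:ℂ)}ᶜ := fun z hz =>
      (differentiableAt_riemannZeta hz).differentiableWithinAt
    exact hd.analyticAt (isOpen_compl_singleton.mem_nhds hne)
  have h2 : analyticOrderAt riemannZeta ρ ≠ 0 := han.analyticOrderAt_ne_zero.2 hz
  have h3 : ((analyticOrderNatAt riemannZeta ρ : ℕ) : ℕ∞) ≤ analyticOrderAt riemannZeta ρ :=
    ENat.coe_toNat_le_self _
  rcases Nat.eq_zero_or_pos (analyticOrderNatAt riemannZeta ρ) with h | h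
  · rw [h]
    simpa using ENat.one_le_iff_ne_zero.2 h2
  · rw [Nat.sub_add_cancel h]
    exact h3

lemma order_two {ρ : ℂ} (hz : riemannZeta ρ = 0) (hz' : deriv riemannZeta ρ = 0) (h1 : ρ.re < 1) :
    ((1 + 1 : ℕ) : ℕ∞) ≤ analyticOrderAt riemannZeta ρ := by
  have hne : ρ ≠ 1 := by rintro rfl; simp at h1
  have han : AnalyticAt ℂ riemannZeta ρ := by
    have hd : DifferentiableOn ℂ riemannZeta {(1:ℂ)}ᶜ := fun z hz =>
      (differentiableAt_riemannZeta hz).differentiableWithinAt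
    exact hd.analyticAt (isOpen_compl_singleton.mem_nhds hne)
  rw [natCast_le_analyticOrderAt_iff_iteratedDeriv_eq_zero han]
  intro i hi
  interval_cases i
  · simpa using hz
  · rw [iteratedDeriv_one]
    exact hz'

/-- a one-sided bound on sparse windows -/
theorem one_sided {s : ℝ} (hs : s = 1 ∨ s = -1)
    (h : ∀ ε : ℝ, 0 < ε → ∃ᶠ x : ℝ in atTop, ∀ y ∈ Icc x (x * Real.log x), s * LL y ≤ ε * (Real.sqrt y * Real.log y))
    (ρ : ℂ) (hz : riemannZeta ρ = 0) (h0 : 0 < ρ.re) (h1 : ρ.re < 1) : ρ.re = 1 / 2 ∧ deriv riemannZeta ρ ≠ 0 := by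
  -- the centered version of the hypothesis
  have hcen : ∀ ε : ℝ, 0 < ε → ∃ᶠ x : ℝ in atTop, ∀ y ∈ Icc x (x * Real.log x),
      s * (LL y - Real.sqrt y / Z) ≤ ε * (Real.sqrt y * Real.log y) := by
    intro ε hε
    have h2 := h (ε / 2) (by positivity)
    have h3 : ∀ᶠ x : ℝ in atTop, |1 / Z| ≤ ε / 2 * Real.log x :=
      (Real.tendsto_log_atTop.const_mul_atTop (by positivity : 0 < ε / 2)).eventually_ge_atTop _
    refine (h2.and_eventually (h3.and (eventually_ge_atTop (1:ℝ)))).mono fun x hx y hy => ?_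
    obtain ⟨hx1, hx2, hx3⟩ := hx
    have hxy : Real.log x ≤ Real.log y := Real.log_le_log (by linarith) hy.1
    have h4 := hx1 y hy
    have h5 : -(s * (Real.sqrt y / Z)) ≤ |1 / Z| * Real.sqrt y := by
      have h6 : |s| = 1 := by rcases hs with h | h <;> rw [h] <;> simp
      calc -(s * (Real.sqrt y / Z)) ≤ |s * (Real.sqrt y / Z)| := neg_le_abs _
        _ = |1 / Z| * Real.sqrt y := by
            rw [abs_mul, h6, one_mul, div_eq_mul_one_div, abs_mul, abs_of_nonneg (Real.sqrt_nonneg y), mul_comm]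
    have h7 : |1 / Z| * Real.sqrt y ≤ (ε / 2 * Real.log y) * Real.sqrt y := by
      refine mul_le_mul_of_nonneg_right ?_ (Real.sqrt_nonneg y)
      have : ε / 2 * Real.log x ≤ ε / 2 * Real.log y := mul_le_mul_of_nonneg_left hxy (by positivity)
      linarith
    calc s * (LL y - Real.sqrt y / Z) = s * LL y + -(s * (Real.sqrt y / Z)) := by ring
      _ ≤ ε / 2 * (Real.sqrt y * Real.log y) + (ε / 2 * Real.log y) * Real.sqrt y := by linarith
      _ = _ := by ring
  have key : ∀ ρ : ℂ, riemannZeta ρ = 0 → 1 / 2 ≤ ρ.re → ρ.re < 1 → ρ.re = 1 / 2 ∧ deriv riemannZeta ρ ≠ 0 := by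
    intro ρ hz h0 h1
    have e1 : ρ.re = 1 / 2 := by
      by_contra hne
      have hgt : 1 / 2 < ρ.re := lt_of_le_of_ne h0 (Ne.symm hne)
      obtain ⟨c, hc, hev⟩ := signsC hz h0 h1 (j := 0) (by
        have := order_pos hz h1
        refine le_trans ?_ this
        exact_mod_cast (by omega : 0 + 1 ≤ analyticOrderNatAt riemannZeta ρ - 1 + 1))
      have h2 := hcen 1 one_pos
      have h3 : ∀ᶠ x : ℝ in atTop, ∀ y ≥ x, Real.sqrt y * Real.log y < c * y ^ ρ.re := by
        have h4 := (isLittleO_log_rpow_atTop (r := ρ.re - 1 / 2) (by linarith)).bound (c := c / 2) (by positivity)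
        obtain ⟨N, hN⟩ := (h4.and (eventually_ge_atTop (1:ℝ))).exists_forall_of_atTop
        filter_upwards [eventually_ge_atTop N] with x hx y hy
        obtain ⟨h5, h6⟩ := hN y (hx.trans hy)
        have hy0 : 0 < y := by linarith
        rw [Real.norm_of_nonneg (Real.log_nonneg h6), Real.norm_of_nonneg (by positivity)] at h5
        have h7 : Real.sqrt y * y ^ (ρ.re - 1 / 2) = y ^ ρ.re := by
          rw [Real.sqrt_eq_rpow, ← Real.rpow_add hy0]
          congr 1
          ring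
        have h8 : 0 < y ^ ρ.re := Real.rpow_pos_of_pos hy0 _
        calc Real.sqrt y * Real.log y ≤ Real.sqrt y * (c / 2 * y ^ (ρ.re - 1 / 2)) :=
              mul_le_mul_of_nonneg_left h5 (Real.sqrt_nonneg y)
          _ = c / 2 * (Real.sqrt y * y ^ (ρ.re - 1 / 2)) := by ring
          _ = c / 2 * y ^ ρ.re := by rw [h7]
          _ < _ := by nlinarith
      obtain ⟨x, hx1, hx2, hx3⟩ := (h2.and_eventually (hev.and h3)).exists
      obtain ⟨y, hy, hy2⟩ := hx2 s hs
      have h9 := hx1 y hy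
      have h10 := hx3 y hy.1
      rw [pow_zero, mul_one] at hy2
      linarith
    refine ⟨e1, fun hz' => ?_⟩
    obtain ⟨c, hc, hev⟩ := signsC hz h0 h1 (j := 1) (order_two hz hz' h1)
    have h2 := hcen (c / 2) (by positivity)
    obtain ⟨x, hx1, hx2, hx3⟩ := (h2.and_eventually (hev.and (eventually_gt_atTop (1:ℝ)))).exists
    obtain ⟨y, hy, hy2⟩ := hx2 s hs
    have h9 := hx1 y hy
    have hy1 : 1 < y := lt_of_lt_of_le hx3 hy.1
    rw [pow_one, e1, ← Real.sqrt_eq_rpow] at hy2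
    have h10 : 0 < Real.sqrt y * Real.log y := mul_pos (Real.sqrt_pos.2 (by linarith)) (Real.log_pos hy1)
    nlinarith
  rcases le_total (1 / 2) ρ.re with h | h
  · exact key ρ hz h h1
  · have hz2 := refl_zero ρ hz h0 h1
    have hre : (1 - ρ).re = 1 - ρ.re := by simp
    have h2 := (key (1 - ρ) hz2 (by rw [hre]; linarith) (by rw [hre]; linarith)).1
    rw [hre] at h2
    exact key ρ hz (by linarith) h1

end

end Pool.Agent.U645.LB
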