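import Pool.Agent.R303.LW.Hf

/-! # Iterated twisted averages: Fubini and transforms -/

open Complex MeasureTheory Filter Topology Set Metric

set_option linter.unusedSectionVars false
set_option linter.unusedVariables false
set_option autoImplicit false
set_option maxHeartbeats 4000000

namespace Pool.Agent.U645.LB

open H313.TK Pool.Agent.R303.LW

noncomputable section

/-- twisted average -/
def Tw (f : ℝ → ℝ) (g : ℝ → ℂ) (t : ℝ) : ℂ := ∫ v : ℝ, (f (t - v) : ℂ) * g v

/-- the function on the plane -/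
def HH (f : ℝ → ℝ) (g : ℝ → ℂ) (ρ : ℂ) (t : ℝ) (p : ℝ × ℝ) : ℂ :=
  (Iic t).indicator (fun w : ℝ => cexp (-ρ * w)) p.1 * ((f (p.1 - p.2) : ℂ) * g p.2)

/-- the sheared function -/
def GG (f : ℝ → ℝ) (g : ℝ → ℂ) (ρ : ℂ) (t : ℝ) (p : ℝ × ℝ) : ℂ := HH f g ρ t (t + p.2 - p.1, p.2)

lemma HH_meas {f : ℝ → ℝ} (hf : Measurable f) {g : ℝ → ℂ} (hg : DK g) (ρ : ℂ) (t : ℝ) :
    Measurable (HH f g ρ t) := by
  have hc := hg.cont.measurable
  have h1 : Measurable ((Iic t).indicator (fun w : ℝ => cexp (-ρ * w))) :=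
    (by fun_prop : Measurable fun w : ℝ => cexp (-ρ * w)).indicator measurableSet_Iic
  unfold HH
  fun_prop

lemma HH_int {f : ℝ → ℝ} (hf : Measurable f) (hb : ∀ u, |f u| ≤ Real.exp u) {g : ℝ → ℂ} (hg : DK g) (ρ : ℂ)
    (h0 : 0 < ρ.re) (h1 : ρ.re < 1) (t : ℝ) : Integrable (HH f g ρ t) (volume.prod volume) := by
  obtain ⟨C, hC, hgb⟩ := hg.bd
  have i1 : Integrable ((Iic t).indicator (fun w : ℝ => Real.exp ((1 - ρ.re) * w))) := by
    rw [integrable_indicator_iff measurableSet_Iic]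
    exact integrableOn_exp_mul_Iic (by linarith) t
  have i2 : Integrable (fun z : ℝ => (4 * C) * Real.exp (-(1 * |z|))) := (int_exp_abs 1 one_pos).const_mul _
  refine (i1.mul_prod i2).mono' (HH_meas hf hg ρ t).aestronglyMeasurable (ae_of_all _ fun p => ?_)
  unfold HH
  by_cases hp : p.1 ∈ Iic t
  · rw [indicator_of_mem hp, indicator_of_mem hp, norm_mul, norm_mul, norm_tw, Complex.norm_real, Real.norm_eq_abs]
    have e1 := hb (p.1 - p.2)
    have e2 := hgb p.2
    have e3 := W_decay p.2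
    have hW := W_pos p.2
    have e4 : Real.exp (-p.2) ≤ Real.exp (2 * |p.2|) := Real.exp_le_exp.2 (by
      have := neg_abs_le p.2
      linarith [abs_nonneg p.2])
    calc Real.exp (-ρ.re * p.1) * (|f (p.1 - p.2)| * ‖g p.2‖) ≤
          Real.exp (-ρ.re * p.1) * (Real.exp (p.1 - p.2) * (C * W p.2)) := by gcongr
      _ = Real.exp ((1 - ρ.re) * p.1) * (C * (W p.2 * Real.exp (-p.2))) := by
          have : Real.exp (-ρ.re * p.1) * Real.exp (p.1 - p.2) = Real.exp ((1 - ρ.re) * p.1) * Real.exp (-p.2) := by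
            rw [← Real.exp_add, ← Real.exp_add]
            congr 1
            ring
          calc _ = (Real.exp (-ρ.re * p.1) * Real.exp (p.1 - p.2)) * (C * W p.2) := by ring
            _ = _ := by rw [this]; ring
      _ ≤ Real.exp ((1 - ρ.re) * p.1) * (C * (W p.2 * Real.exp (2 * |p.2|))) := by gcongr
      _ ≤ Real.exp ((1 - ρ.re) * p.1) * (C * (4 * Real.exp (-|p.2|))) := by gcongr
      _ = _ := by rw [one_mul]; ring
  · rw [indicator_of_notMem hp, indicator_of_notMem hp]
    simp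

lemma GG_int {f : ℝ → ℝ} (hf : Measurable f) (hb : ∀ u, |f u| ≤ Real.exp u) {g : ℝ → ℂ} (hg : DK g) (ρ : ℂ)
    (h0 : 0 < ρ.re) (h1 : ρ.re < 1) (t : ℝ) : Integrable (GG f g ρ t) (volume.prod volume) := by
  obtain ⟨C, hC, hgb⟩ := hg.bd
  have i1 : Integrable (fun v : ℝ => Real.exp ((1 - ρ.re) * t) * Real.exp (-((1 - ρ.re) * |v|))) :=
    (int_exp_abs (1 - ρ.re) (by linarith)).const_mul _
  have i2 : Integrable (fun z : ℝ => (4 * C) * Real.exp (-(1 * |z|))) := (int_exp_abs 1 one_pos).const_mul _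
  have hm : Measurable (GG f g ρ t) := by
    have := HH_meas hf hg ρ t
    unfold GG
    exact this.comp (by fun_prop)
  refine (i1.mul_prod i2).mono' hm.aestronglyMeasurable (ae_of_all _ fun p => ?_)
  unfold GG HH
  simp only
  by_cases hp : t + p.2 - p.1 ∈ Iic t
  · rw [indicator_of_mem hp, norm_mul, norm_mul, norm_tw, Complex.norm_real, Real.norm_eq_abs]
    have hp' : p.2 ≤ p.1 := by
      have : t + p.2 - p.1 ≤ t := hp
      linarith
    have e1 := hb (t + p.2 - p.1 - p.2)
    have e2 := hgb p.2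
    have e3 := W_decay p.2
    have hW := W_pos p.2
    have e5 : -ρ.re * (t + p.2 - p.1) + (t + p.2 - p.1 - p.2) ≤
        (1 - ρ.re) * t + -((1 - ρ.re) * |p.1|) + 2 * |p.2| := by
      rcases le_total 0 p.1 with h | h
      · rw [abs_of_nonneg h]
        have := neg_abs_le p.2
        nlinarith [abs_nonneg p.2, le_abs_self p.2]
      · rw [abs_of_nonpos h, abs_of_nonpos (by linarith : p.2 ≤ 0)]
        nlinarith
    calc Real.exp (-ρ.re * (t + p.2 - p.1)) * (|f (t + p.2 - p.1 - p.2)| * ‖g p.2‖) ≤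
          Real.exp (-ρ.re * (t + p.2 - p.1)) * (Real.exp (t + p.2 - p.1 - p.2) * (C * W p.2)) := by gcongr
      _ = Real.exp (-ρ.re * (t + p.2 - p.1) + (t + p.2 - p.1 - p.2)) * (C * W p.2) := by
          rw [Real.exp_add]; ring
      _ ≤ Real.exp ((1 - ρ.re) * t + -((1 - ρ.re) * |p.1|) + 2 * |p.2|) * (C * W p.2) := by gcongr
      _ = Real.exp ((1 - ρ.re) * t) * Real.exp (-((1 - ρ.re) * |p.1|)) * (C * (W p.2 * Real.exp (2 * |p.2|))) := by
          rw [Real.exp_add, Real.exp_add]; ring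
      _ ≤ Real.exp ((1 - ρ.re) * t) * Real.exp (-((1 - ρ.re) * |p.1|)) * (C * (4 * Real.exp (-|p.2|))) := by gcongr
      _ = _ := by rw [one_mul]; ring
  · rw [indicator_of_notMem hp]
    simp only [zero_mul, norm_zero]
    positivity

/-- **the twisted average of the integrated kernel is the integral of the twisted averages** -/
theorem fub {f : ℝ → ℝ} (hf : Measurable f) (hb : ∀ u, |f u| ≤ Real.exp u) {g : ℝ → ℂ} (hg : DK g) (ρ : ℂ)
    (h0 : 0 < ρ.re) (h1 : ρ.re < 1) (t : ℝ) :
    IntegrableOn (fun w : ℝ => cexp (-ρ * w) * Tw f g w) (Iic t) ∧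
    cexp (-ρ * t) * Tw f (Ist ρ g) t = ∫ w in Iic t, cexp (-ρ * w) * Tw f g w := by
  have iH := HH_int hf hb hg ρ h0 h1 t
  have iG := GG_int hf hb hg ρ h0 h1 t
  have eH : ∀ w : ℝ, ∫ z : ℝ, HH f g ρ t (w, z) = (Iic t).indicator (fun w : ℝ => cexp (-ρ * w) * Tw f g w) w := by
    intro w
    unfold HH
    simp only
    rw [integral_const_mul]
    by_cases hw : w ∈ Iic t
    · rw [indicator_of_mem hw, indicator_of_mem hw]
      rfl
    · rw [indicator_of_notMem hw, indicator_of_notMem hw, zero_mul]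
  refine ⟨?_, ?_⟩
  · have h2 := iH.integral_prod_left
    simp only [eH] at h2
    exact (integrable_indicator_iff measurableSet_Iic).1 h2
  · have e1 : ∫ w in Iic t, cexp (-ρ * w) * Tw f g w = ∫ w : ℝ, ∫ z : ℝ, HH f g ρ t (w, z) := by
      simp only [eH]
      rw [integral_indicator measurableSet_Iic]
    have e2 : ∫ w : ℝ, ∫ z : ℝ, HH f g ρ t (w, z) = ∫ z : ℝ, ∫ w : ℝ, HH f g ρ t (w, z) :=
      integral_integral_swap iH
    have e3 : ∫ z : ℝ, ∫ w : ℝ, HH f g ρ t (w, z) = ∫ z : ℝ, ∫ v : ℝ, GG f g ρ t (v, z) := by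
      refine integral_congr_ae (ae_of_all _ fun z => ?_)
      simp only
      have := integral_sub_left_eq_self (fun w => HH f g ρ t (w, z)) volume (t + z)
      rw [← this]
      rfl
    have e4 : ∫ z : ℝ, ∫ v : ℝ, GG f g ρ t (v, z) = ∫ v : ℝ, ∫ z : ℝ, GG f g ρ t (v, z) :=
      (integral_integral_swap (f := fun v z => GG f g ρ t (v, z)) iG).symm
    rw [e1, e2, e3, e4]
    unfold Tw
    rw [← integral_const_mul]
    refine integral_congr_ae (ae_of_all _ fun v => ?_)
    simp only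
    unfold Ist
    have e5 : ∀ z : ℝ, GG f g ρ t (v, z) = (Iic v).indicator
        (fun z : ℝ => (cexp (-ρ * (t - v)) * (f (t - v) : ℂ)) * (cexp (-ρ * z) * g z)) z := by
      intro z
      unfold GG HH
      simp only
      have hiff : t + z - v ∈ Iic t ↔ z ∈ Iic v := by
        simp only [mem_Iic]
        constructor <;> intro h <;> linarith
      by_cases hz : z ∈ Iic v
      · rw [indicator_of_mem hz, indicator_of_mem (hiff.2 hz)]
        have e6 : cexp (-ρ * ((t + z - v : ℝ) : ℂ)) = cexp (-ρ * (t - v)) * cexp (-ρ * z) := by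
          rw [← Complex.exp_add]
          congr 1
          push_cast
          ring
        rw [e6, show t + z - v - z = t - v by ring]
        ring
      · rw [indicator_of_notMem hz, indicator_of_notMem (fun h => hz (hiff.1 h)), zero_mul]
    simp only [e5]
    rw [integral_indicator measurableSet_Iic, integral_const_mul]
    have e7 : cexp (-ρ * t) * cexp (ρ * v) = cexp (-ρ * (t - v)) := by
      rw [← Complex.exp_add]
      congr 1
      ring
    rw [← e7]
    ring

lemma Tw_meas {f : ℝ → ℝ} (hf : Measurable f) {g : ℝ → ℂ} (hg : Continuous g) : StronglyMeasurable (Tw f g) := by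
  have hc := hg.measurable
  have h : StronglyMeasurable (Function.uncurry fun t v : ℝ => (f (t - v) : ℂ) * g v) :=
    (by unfold Function.uncurry; fun_prop : Measurable (Function.uncurry fun t v : ℝ => (f (t - v) : ℂ) * g v)).stronglyMeasurable
  exact h.integral_prod_right

/-- the derivative of the integrated kernel -/
lemma Ist_deriv {ρ : ℂ} {g : ℝ → ℂ} (hc : Continuous g)
    (hi : ∀ v, IntegrableOn (fun z : ℝ => cexp (-ρ * z) * g z) (Iic v)) (v : ℝ) :
    HasDerivAt (Ist ρ g) (ρ * Ist ρ g v + g v) v := by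
  have h1 := prim_cont (by fun_prop : Continuous fun z : ℝ => cexp (-ρ * z) * g z) hi v
  have h2 : HasDerivAt (fun v : ℝ => cexp (ρ * v)) (ρ * cexp (ρ * v)) v := by
    have h3 : HasDerivAt (fun v : ℝ => ρ * (v : ℂ)) ρ v := by
      simpa using (hasDerivAt_id v).ofReal_comp.const_mul ρ
    simpa [mul_comm] using h3.cexp
  refine (h2.mul h1).congr_deriv ?_
  unfold Ist
  have e : cexp (ρ * v) * (cexp (-ρ * v) * g v) = g v := tw_cancel ρ v (g v)
  rw [e]
  ring

/-- transforms of integrated kernels, general form -/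
lemma tr_gen {s τ : ℂ} {g : ℝ → ℂ} (hc : Continuous g)
    (hi : ∀ v, IntegrableOn (fun z : ℝ => cexp (-τ * z) * g z) (Iic v))
    (i1 : Integrable (fun v : ℝ => cexp (-s * v) * Ist τ g v)) (i2 : Integrable (fun v : ℝ => cexp (-s * v) * g v)) :
    (s - τ) * ∫ v : ℝ, cexp (-s * v) * Ist τ g v = ∫ v : ℝ, cexp (-s * v) * g v := by
  have hd : ∀ v : ℝ, HasDerivAt (fun v : ℝ => cexp (-s * v) * Ist τ g v)
      (cexp (-s * v) * g v - (s - τ) * (cexp (-s * v) * Ist τ g v)) v := by
    intro v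
    have h2 : HasDerivAt (fun v : ℝ => cexp (-s * v)) (-s * cexp (-s * v)) v := by
      have h3 : HasDerivAt (fun v : ℝ => -s * (v : ℂ)) (-s) v := by
        simpa using (hasDerivAt_id v).ofReal_comp.const_mul (-s)
      simpa [mul_comm] using h3.cexp
    refine (h2.mul (Ist_deriv hc hi v)).congr_deriv ?_
    ring
  have key := integral_eq_zero_of_hasDerivAt_of_integrable hd (i2.sub (i1.const_mul (s - τ))) i1
  rw [integral_sub i2 (i1.const_mul _), integral_const_mul, sub_eq_zero] at key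
  exact key.symm

/-- transforms of integrated kernels with vanishing moment -/
theorem tr_DK {g : ℝ → ℂ} (hg : DK g) {ρ s : ℂ} (hβ : |ρ.re| ≤ 2) (hs : |s.re| ≤ 2)
    (h0 : ∫ z : ℝ, cexp (-ρ * z) * g z = 0) :
    (s - ρ) * ∫ v : ℝ, cexp (-s * v) * Ist ρ g v = ∫ v : ℝ, cexp (-s * v) * g v :=
  tr_gen hg.cont (fun v => (tw_int hg ρ hβ).integrableOn) (tw_int (Ist_DK hg ρ hβ h0) s hs) (tw_int hg s hs)

end

end Pool.Agent.U645.LB
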