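import Pool.Agent.U645.LB.A

/-! # The centered Liouville function: transforms -/

open Complex MeasureTheory Filter Topology Set Metric

set_option linter.unusedSectionVars false
set_option linter.unusedVariables false
set_option autoImplicit false
set_option maxHeartbeats 4000000

namespace Pool.Agent.U645.LB

open H313.TK Pool.Agent.R303.LW

noncomputable section

/-- continuous functions with two-sided decay `exp(-2|v|)` -/
structure D2 (g : ℝ → ℂ) : Prop where
  cont : Continuous g
  bd : ∃ C : ℝ, 0 ≤ C ∧ ∀ v, ‖g v‖ ≤ C * Real.exp (-(2 * |v|))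

lemma D2_qc : D2 qc := ⟨Complex.continuous_ofReal.comp qq_cont, 48, by norm_num, qq_bd⟩

lemma D2_kc : D2 kc := by
  refine ⟨kc_DK.cont, C0 * 4, by have := C0_nonneg; positivity, fun v => (kp_bd v).trans ?_⟩
  refine mul_le_mul_of_nonneg_left (Real.exp_le_exp.2 ?_) (by have := C0_nonneg; positivity)
  linarith [abs_nonneg v]

lemma D2.int {g : ℝ → ℂ} (hg : D2 g) (s : ℂ) (hs : |s.re| < 2) : Integrable (fun v : ℝ => cexp (-s * v) * g v) := by
  obtain ⟨C, hC, hb⟩ := hg.bd
  have hc := hg.cont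
  refine ((int_exp_abs (2 - |s.re|) (by linarith)).const_mul C).mono'
    (by fun_prop : Continuous fun v : ℝ => cexp (-s * v) * g v).aestronglyMeasurable (ae_of_all _ fun v => ?_)
  rw [norm_mul, norm_tw]
  have h3 : Real.exp (-s.re * v) ≤ Real.exp (|s.re| * |v|) := by
    refine Real.exp_le_exp.2 ?_
    calc -s.re * v ≤ |-s.re * v| := le_abs_self _
      _ = |s.re| * |v| := by rw [abs_mul, abs_neg]
  calc Real.exp (-s.re * v) * ‖g v‖ ≤ Real.exp (|s.re| * |v|) * (C * Real.exp (-(2 * |v|))) :=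
        mul_le_mul h3 (hb v) (norm_nonneg _) (Real.exp_pos _).le
    _ = C * (Real.exp (|s.re| * |v|) * Real.exp (-(2 * |v|))) := by ring
    _ = _ := by rw [← Real.exp_add]; congr 2; ring

/-- size of the integrated kernel -/
lemma D2.Ist_bd {g : ℝ → ℂ} (hg : D2 g) (τ : ℂ) (h0 : 0 ≤ τ.re) (h2 : τ.re < 2) :
    ∃ C : ℝ, 0 ≤ C ∧ ∀ w : ℝ, ‖Ist τ g w‖ ≤ C * Real.exp (τ.re * max w 0 + 2 * min w 0) := by
  obtain ⟨C, hC, hb⟩ := hg.bd
  have hi := hg.int τ (by rwa [abs_of_nonneg h0])
  set D : ℝ := ∫ v : ℝ, ‖cexp (-τ * v) * g v‖ with hD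
  have hD0 : 0 ≤ D := integral_nonneg fun v => norm_nonneg _
  refine ⟨D + C / (2 - τ.re), add_nonneg hD0 (div_nonneg hC (by linarith)), fun w => ?_⟩
  have hq : 0 ≤ C / (2 - τ.re) := div_nonneg hC (by linarith)
  unfold Ist
  rw [norm_mul, norm_tw']
  rcases le_total 0 w with hw | hw
  · rw [max_eq_left hw, min_eq_right hw, mul_zero, add_zero]
    have h1 : ‖∫ z in Iic w, cexp (-τ * z) * g z‖ ≤ D :=
      (norm_integral_le_integral_norm _).trans (setIntegral_le_integral hi.norm (ae_of_all _ fun v => norm_nonneg _))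
    have h3 := Real.exp_pos (τ.re * w)
    nlinarith
  · rw [max_eq_right hw, min_eq_left hw, mul_zero, zero_add]
    have i3 : IntegrableOn (fun z : ℝ => C * Real.exp ((2 - τ.re) * z)) (Iic w) :=
      (integrableOn_exp_mul_Iic (by linarith) w).const_mul _
    have h1 := norm_integral_le_of_norm_le (μ := volume.restrict (Iic w))
      (f := fun z : ℝ => cexp (-τ * z) * g z) i3 (by
        filter_upwards [ae_restrict_mem measurableSet_Iic] with z hz
        have hz' : z ≤ 0 := le_trans hz hw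
        rw [norm_mul, norm_tw]
        calc Real.exp (-τ.re * z) * ‖g z‖ ≤ Real.exp (-τ.re * z) * (C * Real.exp (-(2 * |z|))) := by
              have := hb z
              gcongr
          _ = C * (Real.exp (-τ.re * z) * Real.exp (-(2 * |z|))) := by ring
          _ = _ := by
              rw [← Real.exp_add, abs_of_nonpos hz']
              congr 2
              ring)
    rw [integral_const_mul, integral_exp_mul_Iic (by linarith)] at h1
    calc Real.exp (τ.re * w) * ‖∫ z in Iic w, cexp (-τ * z) * g z‖ ≤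
          Real.exp (τ.re * w) * (C * (Real.exp ((2 - τ.re) * w) / (2 - τ.re))) := by gcongr
      _ = C / (2 - τ.re) * (Real.exp (τ.re * w) * Real.exp ((2 - τ.re) * w)) := by ring
      _ = C / (2 - τ.re) * Real.exp (2 * w) := by
          rw [← Real.exp_add]
          congr 2
          ring
      _ ≤ _ := by
          have := Real.exp_pos (2 * w)
          nlinarith

/-- one-sided growth: integrability against `exp(-s w)` -/
lemma int_of_bd {F : ℝ → ℂ} (hF : AEStronglyMeasurable F volume) {a C : ℝ} (hC : 0 ≤ C)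
    (hb : ∀ w : ℝ, ‖F w‖ ≤ C * Real.exp (a * max w 0 + 2 * min w 0)) {s : ℂ} (h1 : a < s.re) (h2 : s.re < 2) :
    Integrable (fun w : ℝ => cexp (-s * w) * F w) := by
  set δ := min (s.re - a) (2 - s.re) with hδ
  have hδ0 : 0 < δ := lt_min (by linarith) (by linarith)
  refine ((int_exp_abs δ hδ0).const_mul C).mono'
    (((by fun_prop : Continuous fun w : ℝ => cexp (-s * w)).aestronglyMeasurable).mul hF) (ae_of_all _ fun w => ?_)
  rw [norm_mul, norm_tw]
  calc Real.exp (-s.re * w) * ‖F w‖ ≤ Real.exp (-s.re * w) * (C * Real.exp (a * max w 0 + 2 * min w 0)) := by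
        have := hb w
        gcongr
    _ = C * Real.exp (-s.re * w + (a * max w 0 + 2 * min w 0)) := by rw [Real.exp_add (-s.re * w)]; ring
    _ ≤ _ := by
        refine mul_le_mul_of_nonneg_left (Real.exp_le_exp.2 ?_) hC
        have l1 : δ ≤ s.re - a := min_le_left _ _
        have l2 : δ ≤ 2 - s.re := min_le_right _ _
        rcases le_total 0 w with hw | hw
        · rw [max_eq_left hw, min_eq_right hw, abs_of_nonneg hw]
          nlinarith
        · rw [max_eq_right hw, min_eq_left hw, abs_of_nonpos hw]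
          nlinarith

/-- the transform of the integrated kernel -/
theorem D2.tr {g : ℝ → ℂ} (hg : D2 g) {τ s : ℂ} (h0 : 0 ≤ τ.re) (h1 : τ.re < s.re) (h2 : s.re < 2) :
    Integrable (fun w : ℝ => cexp (-s * w) * Ist τ g w) ∧
    ∫ w : ℝ, cexp (-s * w) * Ist τ g w = (∫ w : ℝ, cexp (-s * w) * g w) / (s - τ) := by
  have hi := hg.int τ (by rw [abs_of_nonneg h0]; linarith)
  obtain ⟨C, hC, hb⟩ := hg.Ist_bd τ h0 (by linarith)
  have hcont : Continuous (Ist τ g) := Ist_cont hg.cont fun v => hi.integrableOn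
  have i1 := int_of_bd hcont.aestronglyMeasurable hC hb h1 h2
  have i2 := hg.int s (by rw [abs_of_pos (by linarith)]; exact h2)
  refine ⟨i1, ?_⟩
  have key := tr_gen hg.cont (fun v => hi.integrableOn) i1 i2
  rw [eq_div_iff (by
    intro h
    rw [sub_eq_zero] at h
    rw [h] at h1
    exact lt_irrefl _ h1), mul_comm]
  exact key

lemma Gg_eq (g : ℝ → ℂ) (t : ℝ) : Gg g t = Ist 0 g t := by
  unfold Gg Ist
  simp

/-- the average of the Liouville function -/
def SS (t : ℝ) : ℂ := Tw ll kc t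

lemma SS_sum (t : ℝ) : HasSum (fun k : ℕ => Gg qc (t - Lk k)) (SS t) := by
  have hDq : DK (Sg qc) := by
    rw [← kc_eq]
    exact kc_DK
  have h := ident qc_QQ hDq t
  unfold SS Tw
  rw [kc_eq]
  exact h

lemma SS_bd (a : ℝ) (h1 : 1 / 2 < a) (h2 : a ≤ 2) :
    ∃ C : ℝ, 0 ≤ C ∧ ∀ w : ℝ, ‖SS w‖ ≤ C * Real.exp (a * max w 0 + 2 * min w 0) := by
  obtain ⟨Ca, hCa, ha⟩ := q_bound a (by linarith) h2
  obtain ⟨Cb, hCb, hb⟩ := q_bound 2 (by norm_num) le_rfl
  have ka := fun t : ℝ => sum_bound h1 hCa ha (SS_sum t)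
  have kb := fun t : ℝ => sum_bound (by norm_num) hCb hb (SS_sum t)
  set A := Ca * (∑' k : ℕ, 1 / ((k : ℝ) + 1) ^ (2 * a)) with hA
  set B := Cb * (∑' k : ℕ, 1 / ((k : ℝ) + 1) ^ (2 * (2:ℝ))) with hB
  have hA0 : 0 ≤ A := mul_nonneg hCa (tsum_nonneg fun k => by positivity)
  have hB0 : 0 ≤ B := mul_nonneg hCb (tsum_nonneg fun k => by positivity)
  refine ⟨A + B, by positivity, fun w => ?_⟩
  rcases le_total 0 w with hw | hw
  · rw [max_eq_left hw, min_eq_right hw, mul_zero, add_zero]
    refine (ka w).trans ?_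
    have := Real.exp_pos (a * w)
    nlinarith
  · rw [max_eq_right hw, min_eq_left hw, mul_zero, zero_add]
    refine (kb w).trans ?_
    have := Real.exp_pos (2 * w)
    nlinarith

/-- the transform of the average of the Liouville function -/
theorem SS_tr {s : ℂ} (h1 : 1 / 2 < s.re) (h2 : s.re < 2) :
    Integrable (fun w : ℝ => cexp (-s * w) * SS w) ∧
    ∫ w : ℝ, cexp (-s * w) * SS w = riemannZeta (2 * s) * (qh s / s) := by
  obtain ⟨i0, e0⟩ := D2_qc.tr (τ := 0) (s := s) (by simp) (by simp; linarith) h2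
  set G : ℝ → ℂ := fun w => cexp (-s * w) * Ist 0 qc w with hG
  set F : ℕ → ℝ → ℂ := fun k w => cexp (-s * w) * Gg qc (w - Lk k) with hF
  have hFG : ∀ k, F k = fun w => cexp (-s * (Lk k : ℂ)) * G (w - Lk k) := by
    intro k
    funext w
    simp only [hF, hG]
    rw [Gg_eq, ← mul_assoc, ← Complex.exp_add]
    congr 2
    push_cast
    ring
  have hFi : ∀ k, Integrable (F k) := by
    intro k
    rw [hFG]
    exact (i0.comp_sub_right _).const_mul _
  have hFI : ∀ k, ∫ w, F k w = (1 / ((k : ℂ) + 1) ^ (2 * s)) * (qh s / s) := by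
    intro k
    rw [hFG, integral_const_mul, integral_sub_right_eq_self G, cexp_Lk, hG, e0, sub_zero]
    rfl
  have hFn : ∀ k, ∫ w, ‖F k w‖ = (1 / ((k : ℝ) + 1) ^ (2 * s.re)) * ∫ w, ‖G w‖ := by
    intro k
    rw [hFG]
    simp only [norm_mul]
    rw [integral_const_mul, integral_sub_right_eq_self (fun v => ‖G v‖)]
    congr 1
    rw [show (Lk k : ℂ) = ((Lk k : ℝ) : ℂ) from rfl, norm_tw, ← exp_aLk]
    congr 1
    ring
  have hFs : Summable (fun k => ∫ w, ‖F k w‖) := by
    simp only [hFn]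
    exact (zsum s.re h1).mul_right _
  have key := hasSum_integral_of_summable_integral_norm hFi hFs
  have e1 : ∀ w, ∑' k, F k w = cexp (-s * w) * SS w := by
    intro w
    simp only [hF]
    rw [tsum_mul_left, (SS_sum w).tsum_eq]
  refine ⟨?_, ?_⟩
  · set a := (1 / 2 + s.re) / 2 with ha
    have ha1 : 1 / 2 < a := by rw [ha]; linarith
    have ha2 : a < s.re := by rw [ha]; linarith
    obtain ⟨C, hC, hb⟩ := SS_bd a ha1 (by linarith)
    exact int_of_bd (Tw_meas ll_meas kc_DK.cont).aestronglyMeasurable hC hb ha2 h2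
  · simp only [e1] at key
    simp only [hFI] at key
    rw [← key.tsum_eq, tsum_mul_right, zeta_eq_tsum_one_div_nat_add_one_cpow (by
      rw [Complex.mul_re]
      simp
      linarith)]

end

end Pool.Agent.U645.LB
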