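import Pool.Agent.U645.LB.B

/-! # The centered Liouville function: bounded averages and the transform -/

open Complex MeasureTheory Filter Topology Set Metric

set_option linter.unusedSectionVars false
set_option linter.unusedVariables false
set_option autoImplicit false
set_option maxHeartbeats 4000000

namespace Pool.Agent.U645.LB

open H313.TK Pool.Agent.R303.LW

noncomputable section

/-- `qh(1/2)` as a real number -/
def κq : ℝ := ∫ z, Real.exp (-z / 2) * qq z

/-- `Kh(1/2)` as a real number -/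
def κk : ℝ := ∫ z, Real.exp (-z / 2) * kp z

lemma qh_half : qh (1 / 2) = ((κq : ℝ) : ℂ) := by
  rw [κq, ← integral_complex_ofReal]
  unfold qh
  refine integral_congr_ae (ae_of_all _ fun z => ?_)
  simp only
  push_cast
  congr 2
  ring

lemma Kh_half : Kh (1 / 2) = ((κk : ℝ) : ℂ) := by
  rw [κk, ← integral_complex_ofReal]
  unfold Kh
  refine integral_congr_ae (ae_of_all _ fun z => ?_)
  simp only
  push_cast
  congr 2
  ring

lemma κk_int : Integrable (fun z => Real.exp (-z / 2) * kp z) := by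
  have h := (D2_kc.int (1 / 2) (by norm_num)).norm
  refine h.congr (ae_of_all _ fun z => ?_)
  simp only
  rw [norm_mul, norm_tw]
  unfold kc
  rw [Complex.norm_real, Real.norm_eq_abs, abs_of_nonneg (kp_nonneg z)]
  congr 2
  norm_num
  ring

lemma κk_pos : 0 < κk := by
  unfold κk
  rw [integral_pos_iff_support_of_nonneg (fun z => mul_nonneg (Real.exp_pos _).le (kp_nonneg z)) κk_int]
  have : Function.support (fun z => Real.exp (-z / 2) * kp z) = univ := by
    ext z
    simp only [Function.mem_support, mem_univ, iff_true]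
    have h1 := W_pos z
    have h2 := (kp_bounds z).1
    have : 0 < kp z := by linarith
    positivity
  rw [this]
  simp

lemma κq_neg : κq < 0 := by
  have h := qh_formula (1 / 2) (by norm_num)
  rw [qh_half] at h
  have hp := Real.pi_pos
  have e : ∀ x : ℝ, 0 < x → (x : ℂ) ^ (-((1 / 2 : ℂ) / 2)) = ((x ^ (-(1 / 4) : ℝ) : ℝ) : ℂ) := by
    intro x hx
    rw [Complex.ofReal_cpow hx.le]
    congr 1
    push_cast
    norm_num
  have eG : Complex.Gamma ((1 / 2 : ℂ) / 2) = ((Real.Gamma (1 / 4) : ℝ) : ℂ) := by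
    rw [← Complex.Gamma_ofReal]
    congr 1
    push_cast
    norm_num
  rw [e _ (by positivity), e _ hp, e _ (by positivity), eG] at h
  have hr : κq = 1 / 2 * Real.Gamma (1 / 4) * ((Real.pi / 4) ^ (-(1 / 4) : ℝ) - 3 * Real.pi ^ (-(1 / 4) : ℝ) +
      2 * (4 * Real.pi) ^ (-(1 / 4) : ℝ)) := by
    apply Complex.ofReal_injective
    rw [h]
    simp only [Complex.ofReal_mul, Complex.ofReal_add, Complex.ofReal_sub, Complex.ofReal_div, Complex.ofReal_one,
      Complex.ofReal_ofNat]
  set a : ℝ := (4 : ℝ) ^ (1 / 4 : ℝ) with ha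
  have ha0 : 0 < a := by positivity
  have ha2 : a ^ 2 = 2 := by
    rw [ha, ← Real.rpow_natCast, ← Real.rpow_mul (by norm_num)]
    have h5 : (1 / 4 : ℝ) * ((2 : ℕ) : ℝ) = 1 / 2 := by norm_num
    rw [h5, ← Real.sqrt_eq_rpow, show (4:ℝ) = 2 ^ 2 by norm_num]
    exact Real.sqrt_sq (by norm_num)
  set p : ℝ := Real.pi ^ (-(1 / 4) : ℝ) with hpp
  have hp0 : 0 < p := by positivity
  have h4 : (4 : ℝ) ^ (-(1 / 4) : ℝ) = a⁻¹ := by rw [Real.rpow_neg (by norm_num)]
  have e1 : (Real.pi / 4) ^ (-(1 / 4) : ℝ) = p * a := by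
    rw [Real.div_rpow hp.le (by norm_num), h4, div_inv_eq_mul]
  have e2 : (4 * Real.pi) ^ (-(1 / 4) : ℝ) = a⁻¹ * p := by
    rw [Real.mul_rpow (by norm_num) hp.le, h4]
  rw [e1, e2] at hr
  have hinv : 2 * a⁻¹ = a := by
    field_simp
    exact ha2.symm
  have e3 : p * a - 3 * p + 2 * (a⁻¹ * p) = p * (2 * a - 3) := by
    calc _ = p * a - 3 * p + (2 * a⁻¹) * p := by ring
      _ = _ := by rw [hinv]; ring
  rw [e3] at hr
  have ha3 : 2 * a - 3 < 0 := by nlinarith
  have hG : 0 < Real.Gamma (1 / 4) := Real.Gamma_pos_of_pos (by norm_num)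
  rw [hr]
  have h6 : p * (2 * a - 3) < 0 := mul_neg_of_pos_of_neg hp0 ha3
  have h7 : 0 < 1 / 2 * Real.Gamma (1 / 4) := by positivity
  exact mul_neg_of_pos_of_neg h7 h6

/-- `ζ(1/2)` as a real number -/
def Z : ℝ := κk / κq

lemma Z_neg : Z < 0 := div_neg_of_pos_of_neg κk_pos κq_neg

lemma zeta_half : riemannZeta (1 / 2) = ((Z : ℝ) : ℂ) := by
  have h := Kh_eq (1 / 2) (by norm_num) (by norm_num) (by norm_num)
  rw [Kh_half, qh_half] at h
  have h2 : ((κq : ℝ) : ℂ) ≠ 0 := by exact_mod_cast κq_neg.ne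
  unfold Z
  push_cast
  rw [eq_div_iff h2]
  exact h.symm

/-- the centering -/
def cen (u : ℝ) : ℝ := (Ici (0:ℝ)).indicator (fun u => Real.exp (u / 2)) u

lemma cen_meas : Measurable cen :=
  (by fun_prop : Measurable fun u : ℝ => Real.exp (u / 2)).indicator measurableSet_Ici

lemma cen_nonneg (u : ℝ) : 0 ≤ cen u := indicator_nonneg (fun u _ => (Real.exp_pos _).le) u

lemma cen_le (u : ℝ) : cen u ≤ Real.exp u := by
  unfold cen
  by_cases h : u ∈ Ici (0:ℝ)
  · rw [indicator_of_mem h]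
    refine Real.exp_le_exp.2 ?_
    have : (0:ℝ) ≤ u := h
    linarith
  · rw [indicator_of_notMem h]
    exact (Real.exp_pos _).le

/-- scaling factor -/
def lam : ℝ := (1 + |1 / Z|)⁻¹

lemma lam_pos : 0 < lam := by unfold lam; positivity

/-- the centered and scaled Liouville function -/
def ff (u : ℝ) : ℝ := lam * (ll u - 1 / Z * cen u)

lemma ff_meas : Measurable ff := by
  have h1 := ll_meas
  have h2 := cen_meas
  unfold ff
  fun_prop

lemma ff_bd (u : ℝ) : |ff u| ≤ Real.exp u := by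
  unfold ff
  rw [abs_mul, abs_of_pos lam_pos]
  have h1 := abs_ll_le u
  have h2 : |1 / Z * cen u| ≤ |1 / Z| * Real.exp u := by
    rw [abs_mul, abs_of_nonneg (cen_nonneg u)]
    exact mul_le_mul_of_nonneg_left (cen_le u) (abs_nonneg _)
  have h3 : |ll u - 1 / Z * cen u| ≤ (1 + |1 / Z|) * Real.exp u := by
    have := abs_sub (ll u) (1 / Z * cen u)
    linarith
  calc lam * |ll u - 1 / Z * cen u| ≤ lam * ((1 + |1 / Z|) * Real.exp u) := mul_le_mul_of_nonneg_left h3 lam_pos.le
    _ = _ := by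
        unfold lam
        field_simp

lemma Tw_cen (t : ℝ) : Tw cen kc t = Ist (1 / 2) kc t := by
  unfold Tw Ist
  rw [← integral_const_mul, ← integral_indicator measurableSet_Iic]
  refine integral_congr_ae (ae_of_all _ fun v => ?_)
  simp only
  unfold cen
  by_cases h : v ∈ Iic t
  · have h2 : t - v ∈ Ici (0:ℝ) := by
      have : v ≤ t := h
      simp only [mem_Ici]
      linarith
    rw [indicator_of_mem h, indicator_of_mem h2, ← mul_assoc, ← Complex.exp_add]
    push_cast
    congr 2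
    ring
  · have h2 : t - v ∉ Ici (0:ℝ) := by
      have : ¬ v ≤ t := h
      simp only [mem_Ici]
      intro h3
      exact this (by linarith)
    rw [indicator_of_notMem h, indicator_of_notMem h2]
    simp

lemma kc_int_of {f : ℝ → ℝ} (hf : Measurable f) (hb : ∀ u, |f u| ≤ Real.exp u) (t : ℝ) :
    Integrable (fun v : ℝ => (f (t - v) : ℂ) * kc v) := by
  have h := (avg_int f hf hb t).ofReal (𝕜 := ℂ)
  refine h.congr (ae_of_all _ fun v => ?_)
  simp [kc]

/-- the average of the centered function -/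
def AA (t : ℝ) : ℂ := Tw ff kc t

lemma AA_eq (t : ℝ) : AA t = (lam : ℂ) * (SS t - (1 / Z : ℝ) * Ist (1 / 2) kc t) := by
  have i1 := kc_int_of ll_meas abs_ll_le t
  have i2 := kc_int_of cen_meas (fun u => by rw [abs_of_nonneg (cen_nonneg u)]; exact cen_le u) t
  rw [← Tw_cen]
  unfold AA SS Tw
  rw [← integral_const_mul, ← integral_sub i1 (i2.const_mul _), ← integral_const_mul]
  refine integral_congr_ae (ae_of_all _ fun v => ?_)
  simp only
  unfold ff
  push_cast
  ring

/-- the average of the Liouville function, precise form -/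
lemma avgS : ∃ C : ℝ, 0 ≤ C ∧ ∀ t : ℝ, ‖SS t - (κq : ℂ) * cexp (1 / 2 * t)‖ ≤ C := by
  set C : ℝ := ∫ z, |qq z| with hC
  have hC0 : 0 ≤ C := integral_nonneg fun z => abs_nonneg _
  refine ⟨C, hC0, fun t => ?_⟩
  have e1 : SS t = ((∫ z, (⌊Real.exp ((t - z) / 2)⌋₊ : ℝ) * qq z : ℝ) : ℂ) := by
    have h1 := SS_sum t
    have h2 : (fun k : ℕ => Gg qc (t - Lk k)) = fun k : ℕ => ((∫ z in Iic (t - Lk k), qq z : ℝ) : ℂ) := by
      funext k
      unfold Gg qc
      exact integral_complex_ofReal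
    rw [h2] at h1
    exact h1.unique (Complex.hasSum_ofReal.2 (sum_form t))
  have i1 := qe_int t
  have hc := qq_cont
  have i2 : Integrable (fun z => (⌊Real.exp ((t - z) / 2)⌋₊ : ℝ) * qq z) := by
    refine i1.norm.mono' ?_ (ae_of_all _ fun z => ?_)
    · have hm : Measurable (fun z : ℝ => (⌊Real.exp ((t - z) / 2)⌋₊ : ℝ)) :=
        measurable_from_nat.comp (Nat.measurable_floor.comp (by fun_prop))
      exact (hm.mul hc.measurable).aestronglyMeasurable
    · rw [norm_mul, norm_mul, Real.norm_of_nonneg (Nat.cast_nonneg _), Real.norm_of_nonneg (Real.exp_pos _).le]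
      exact mul_le_mul_of_nonneg_right (Nat.floor_le (Real.exp_pos _).le) (norm_nonneg _)
  have e2 : |(∫ z, (⌊Real.exp ((t - z) / 2)⌋₊ : ℝ) * qq z) - ∫ z, Real.exp ((t - z) / 2) * qq z| ≤ C := by
    rw [← integral_sub i2 i1, ← Real.norm_eq_abs]
    refine norm_integral_le_of_norm_le qq_int (ae_of_all _ fun z => ?_)
    rw [← sub_mul, norm_mul, Real.norm_eq_abs, Real.norm_eq_abs]
    have h1 := Nat.floor_le (Real.exp_pos ((t - z) / 2)).le
    have h2 := Nat.lt_floor_add_one (Real.exp ((t - z) / 2))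
    have h3 : |(⌊Real.exp ((t - z) / 2)⌋₊ : ℝ) - Real.exp ((t - z) / 2)| ≤ 1 := by
      rw [abs_le]
      constructor <;> linarith
    calc _ ≤ 1 * |qq z| := mul_le_mul_of_nonneg_right h3 (abs_nonneg _)
      _ = _ := one_mul _
  have e3 : ∫ z, Real.exp ((t - z) / 2) * qq z = κq * Real.exp (1 / 2 * t) := by
    rw [κq, mul_comm, ← integral_const_mul]
    refine integral_congr_ae (ae_of_all _ fun z => ?_)
    simp only
    rw [← mul_assoc, ← Real.exp_add]
    congr 2
    ring
  rw [e3] at e2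
  rw [e1]
  have e4 : ((∫ z, (⌊Real.exp ((t - z) / 2)⌋₊ : ℝ) * qq z : ℝ) : ℂ) - (κq : ℂ) * cexp (1 / 2 * t) =
      (((∫ z, (⌊Real.exp ((t - z) / 2)⌋₊ : ℝ) * qq z) - κq * Real.exp (1 / 2 * t) : ℝ) : ℂ) := by
    push_cast
    rfl
  rw [e4, Complex.norm_real, Real.norm_eq_abs]
  exact e2

lemma avgJ : ∃ C : ℝ, 0 ≤ C ∧ ∀ t : ℝ, 0 ≤ t → ‖Ist (1 / 2) kc t - (κk : ℂ) * cexp (1 / 2 * t)‖ ≤ C := by
  have hC := C0_nonneg
  refine ⟨4 * C0, by positivity, fun t ht => ?_⟩
  have hi := D2_kc.int (1 / 2) (by norm_num)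
  have h1 := intervalIntegral.integral_Iic_add_Ioi (b := t) hi.integrableOn hi.integrableOn
  have h2 : ∫ z : ℝ, cexp (-(1 / 2) * z) * kc z = (κk : ℂ) := Kh_half
  rw [h2] at h1
  have h3 : Ist (1 / 2) kc t - (κk : ℂ) * cexp (1 / 2 * t) =
      -(cexp (1 / 2 * t) * ∫ z in Ioi t, cexp (-(1 / 2) * z) * kc z) := by
    unfold Ist
    rw [← h1]
    ring
  rw [h3, norm_neg, norm_mul, norm_tw']
  have i3 : IntegrableOn (fun z : ℝ => (C0 * 4) * Real.exp (-1 * z)) (Ioi t) :=
    (integrableOn_exp_mul_Ioi (by norm_num) t).const_mul _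
  have h4 := norm_integral_le_of_norm_le (μ := volume.restrict (Ioi t))
    (f := fun z : ℝ => cexp (-(1 / 2) * z) * kc z) i3 (by
      filter_upwards [ae_restrict_mem measurableSet_Ioi] with z hz
      have hz' : 0 ≤ z := le_trans ht (le_of_lt hz)
      rw [norm_mul, norm_tw]
      have h5 := kp_bd z
      rw [abs_of_nonneg hz'] at h5
      calc Real.exp (-(1 / 2 : ℂ).re * z) * ‖kc z‖ ≤ 1 * ((C0 * 4) * Real.exp (-(3 * z))) := by
            refine mul_le_mul ?_ h5 (norm_nonneg _) zero_le_one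
            rw [Real.exp_le_one_iff]
            norm_num
            linarith
        _ ≤ _ := by
            rw [one_mul]
            refine mul_le_mul_of_nonneg_left (Real.exp_le_exp.2 ?_) (by positivity)
            linarith)
  rw [integral_const_mul, integral_exp_mul_Ioi (by norm_num)] at h4
  calc Real.exp ((1 / 2 : ℂ).re * t) * ‖∫ z in Ioi t, cexp (-(1 / 2) * z) * kc z‖ ≤
        Real.exp (1 * t) * ((C0 * 4) * Real.exp (-1 * t)) := by
        refine mul_le_mul (Real.exp_le_exp.2 ?_) (h4.trans (le_of_eq ?_)) (norm_nonneg _) (Real.exp_pos _).le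
        · norm_num
          linarith
        · ring
    _ = 4 * C0 * (Real.exp (1 * t) * Real.exp (-1 * t)) := by ring
    _ = 4 * C0 := by rw [← Real.exp_add]; simp

/-- the average of the centered function is bounded -/
theorem AA_bd : ∃ C : ℝ, 0 ≤ C ∧ ∀ w : ℝ, ‖AA w‖ ≤ C * Real.exp (0 * max w 0 + 2 * min w 0) := by
  obtain ⟨C1, hC1, h1⟩ := avgS
  obtain ⟨C2, hC2, h2⟩ := avgJ
  obtain ⟨C3, hC3, h3⟩ := SS_bd 1 (by norm_num) (by norm_num)
  obtain ⟨C4, hC4, h4⟩ := D2_kc.Ist_bd (1 / 2) (by norm_num) (by norm_num)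
  have hl := lam_pos
  set b : ℝ := |1 / Z| with hb
  have hb0 : 0 ≤ b := abs_nonneg _
  refine ⟨lam * (C1 + b * C2 + C3 + b * C4), by positivity, fun w => ?_⟩
  rw [AA_eq, norm_mul, Complex.norm_real, Real.norm_of_nonneg hl.le, mul_assoc]
  refine mul_le_mul_of_nonneg_left ?_ hl.le
  have hbn : ‖((1 / Z : ℝ) : ℂ)‖ = b := by rw [Complex.norm_real, Real.norm_eq_abs]
  rcases le_total 0 w with hw | hw
  · rw [max_eq_left hw, min_eq_right hw, mul_zero, zero_mul, zero_add, Real.exp_zero, mul_one]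
    have hZ : (κq : ℂ) = ((1 / Z : ℝ) : ℂ) * (κk : ℂ) := by
      have : κq = 1 / Z * κk := by
        unfold Z
        have h5 := κk_pos.ne'
        have h6 := κq_neg.ne
        field_simp
      exact_mod_cast this
    have e1 : SS w - ((1 / Z : ℝ) : ℂ) * Ist (1 / 2) kc w = (SS w - (κq : ℂ) * cexp (1 / 2 * w)) -
        ((1 / Z : ℝ) : ℂ) * (Ist (1 / 2) kc w - (κk : ℂ) * cexp (1 / 2 * w)) := by
      rw [hZ]
      ring
    rw [e1]
    refine (norm_sub_le _ _).trans ?_
    rw [norm_mul, hbn]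
    have k1 := h1 w
    have k2 := mul_le_mul_of_nonneg_left (h2 w hw) hb0
    have k3 : 0 ≤ b * C4 := by positivity
    linarith
  · rw [max_eq_right hw, min_eq_left hw, mul_zero, zero_add]
    have k3 := h3 w
    have k4 := h4 w
    rw [max_eq_right hw, min_eq_left hw, mul_zero, zero_add] at k3 k4
    refine (norm_sub_le _ _).trans ?_
    rw [norm_mul, hbn]
    have k5 := mul_le_mul_of_nonneg_left k4 hb0
    have k6 := Real.exp_pos (2 * w)
    have k7 : 0 ≤ (C1 + b * C2) * Real.exp (2 * w) := by positivity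
    nlinarith

/-- the transform of the average of the centered function -/
theorem AA_tr1 {s : ℂ} (h1 : 1 / 2 < s.re) (h2 : s.re < 2) :
    ∫ w : ℝ, cexp (-s * w) * AA w =
      lam * (riemannZeta (2 * s) * (qh s / s) - (1 / Z : ℝ) * (Kh s / (s - 1 / 2))) := by
  obtain ⟨i1, e1⟩ := SS_tr h1 h2
  obtain ⟨i2, e2⟩ := D2_kc.tr (τ := 1 / 2) (s := s) (by norm_num) (by norm_num; linarith) h2
  have e3 : ∀ w : ℝ, cexp (-s * w) * AA w = lam * (cexp (-s * w) * SS w -
      (1 / Z : ℝ) * (cexp (-s * w) * Ist (1 / 2) kc w)) := by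
    intro w
    rw [AA_eq]
    ring
  simp only [e3]
  rw [integral_const_mul, integral_sub i1 (i2.const_mul _), integral_const_mul, e1, e2]
  rfl

lemma AA_int {s : ℂ} (h1 : 0 < s.re) (h2 : s.re < 2) : Integrable (fun w : ℝ => cexp (-s * w) * AA w) := by
  obtain ⟨C, hC, hb⟩ := AA_bd
  exact int_of_bd (Tw_meas ff_meas kc_DK.cont).aestronglyMeasurable hC hb h1 h2

/-- the transform on the closed half plane -/
theorem AA_tr {ρ : ℂ} (h0 : 1 / 2 ≤ ρ.re) (h1 : ρ.re < 1) (hne : ρ ≠ 1 / 2) :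
    ∫ w : ℝ, cexp (-ρ * w) * AA w =
      lam * (riemannZeta (2 * ρ) * (qh ρ / ρ) - (1 / Z : ℝ) * (Kh ρ / (ρ - 1 / 2))) := by
  obtain ⟨C, hC, hb⟩ := AA_bd
  have hρ0 : ρ ≠ 0 := by rintro rfl; norm_num at h0
  -- the path to the right
  set sp : ℝ → ℂ := fun ε => ρ + (ε : ℂ) with hsp
  have hspc : Continuous sp := by rw [hsp]; fun_prop
  have hsp0 : sp 0 = ρ := by simp [hsp]
  have hmem : ∀ᶠ ε : ℝ in 𝓝[>] (0:ℝ), 0 < ε ∧ ε < 1 / 2 := by
    refine Ioo_mem_nhdsGT (by norm_num)
  have t1 : Tendsto (fun ε : ℝ => ∫ w : ℝ, cexp (-sp ε * w) * AA w) (𝓝[>] (0:ℝ))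
      (𝓝 (∫ w : ℝ, cexp (-ρ * w) * AA w)) := by
    refine tendsto_integral_filter_of_dominated_convergence
      (fun w : ℝ => C * Real.exp (-(1 / 2 * |w|))) ?_ ?_ ?_ ?_
    · refine Eventually.of_forall fun ε => ?_
      exact ((by fun_prop : Continuous fun w : ℝ => cexp (-sp ε * w)).aestronglyMeasurable).mul
        (Tw_meas ff_meas kc_DK.cont).aestronglyMeasurable
    · filter_upwards [hmem] with ε hε
      refine ae_of_all _ fun w => ?_
      rw [norm_mul, norm_tw]
      have hre : (sp ε).re = ρ.re + ε := by simp [hsp]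
      calc Real.exp (-(sp ε).re * w) * ‖AA w‖ ≤
            Real.exp (-(sp ε).re * w) * (C * Real.exp (0 * max w 0 + 2 * min w 0)) := by
            have := hb w
            gcongr
        _ = C * Real.exp (-(sp ε).re * w + (0 * max w 0 + 2 * min w 0)) := by rw [Real.exp_add (-(sp ε).re * w)]; ring
        _ ≤ _ := by
            refine mul_le_mul_of_nonneg_left (Real.exp_le_exp.2 ?_) hC
            rw [hre]
            rcases le_total 0 w with hw | hw
            · rw [max_eq_left hw, min_eq_right hw, abs_of_nonneg hw]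
              nlinarith [hε.1]
            · rw [max_eq_right hw, min_eq_left hw, abs_of_nonpos hw]
              nlinarith [hε.2]
    · exact (int_exp_abs (1 / 2) (by norm_num)).const_mul C
    · refine ae_of_all _ fun w => ?_
      have : Continuous fun ε : ℝ => cexp (-sp ε * w) * AA w := by fun_prop
      have h2 := this.tendsto 0
      rw [hsp0] at h2
      exact h2.mono_left nhdsWithin_le_nhds
  have t2 : Tendsto (fun ε : ℝ => (lam : ℂ) * (riemannZeta (2 * sp ε) * (qh (sp ε) / sp ε) -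
      (1 / Z : ℝ) * (Kh (sp ε) / (sp ε - 1 / 2)))) (𝓝[>] (0:ℝ))
      (𝓝 (lam * (riemannZeta (2 * ρ) * (qh ρ / ρ) - (1 / Z : ℝ) * (Kh ρ / (ρ - 1 / 2))))) := by
    have c0 : ContinuousAt sp 0 := hspc.continuousAt
    have hre1 : |ρ.re| < 2 := by rw [abs_of_nonneg (by linarith)]; linarith
    have cz : ContinuousAt (fun s : ℂ => riemannZeta (2 * s)) ρ := by
      have h2ne : 2 * ρ ≠ 1 := by
        intro h
        apply hne
        rw [eq_div_iff (two_ne_zero), mul_comm]
        exact h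
      have h3 : ContinuousAt riemannZeta (2 * ρ) := (differentiableAt_riemannZeta h2ne).continuousAt
      exact ContinuousAt.comp (f := fun s : ℂ => 2 * s) (g := riemannZeta) h3 (by fun_prop)
    have cq : ContinuousAt qh ρ := (qh_deriv ρ hre1).continuousAt
    have ck : ContinuousAt Kh ρ := (Kh_deriv ρ (by linarith)).continuousAt
    have cs : ContinuousAt (fun s : ℂ => (lam : ℂ) * (riemannZeta (2 * s) * (qh s / s) -
      (1 / Z : ℝ) * (Kh s / (s - 1 / 2)))) ρ := by
      have hne2 : ρ - 1 / 2 ≠ 0 := sub_ne_zero.2 hne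
      exact continuousAt_const.mul ((cz.mul (cq.div continuousAt_id hρ0)).sub
        (continuousAt_const.mul (ck.div (continuousAt_id.sub continuousAt_const) hne2)))
    have h4 : Tendsto sp (𝓝[>] (0:ℝ)) (𝓝 ρ) := by
      have := c0.tendsto
      rw [hsp0] at this
      exact this.mono_left nhdsWithin_le_nhds
    exact cs.tendsto.comp h4
  refine tendsto_nhds_unique t1 (t2.congr' ?_)
  filter_upwards [hmem] with ε hε
  have hre : (sp ε).re = ρ.re + ε := by simp [hsp]
  exact (AA_tr1 (by rw [hre]; linarith [hε.1]) (by rw [hre]; linarith [hε.2])).symm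

/-- the value at a zero -/
theorem AA_zero {ρ : ℂ} (hz : riemannZeta ρ = 0) (h0 : 1 / 2 ≤ ρ.re) (h1 : ρ.re < 1) :
    ∫ w : ℝ, cexp (-ρ * w) * AA w ≠ 0 := by
  have hρ0 : ρ ≠ 0 := by rintro rfl; norm_num at h0
  have hne : ρ ≠ 1 / 2 := by
    intro h
    rw [h, zeta_half] at hz
    exact Z_neg.ne (by exact_mod_cast hz)
  rw [AA_tr h0 h1 hne, Kh_zero ρ hz (by linarith) h1, zero_div, mul_zero, sub_zero]
  have hl : (lam : ℂ) ≠ 0 := by exact_mod_cast lam_pos.ne'
  refine mul_ne_zero hl (mul_ne_zero ?_ (div_ne_zero (qh_ne ρ (by linarith) h1) hρ0))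
  refine riemannZeta_ne_zero_of_one_le_re ?_
  rw [Complex.mul_re]
  simp
  linarith

end

end Pool.Agent.U645.LB
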